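import Pool.Agent.Helper94.PQ.StmtsT
import Pool.Agent.Helper94.PQ.StmtsK
import Pool.Agent.Helper39.PQ.ODDV

/-!
# Row ODDVT: the parity of the exponent of the conductor at the odd places (orthogonal
representations over extensions of the l-adic numbers)
-/

set_option autoImplicit false

open NumberField
open scoped Classical

namespace PQ

open BKA Pool.Agent.Helper13.Swan

namespace A51

theorem isom_of_congrT (hCYCI : ST_CYCI) {F : Type} [Field F] [NumberField F] {n : ℕ} {m : ℤ}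
    {δ : F} {ℓ : ℕ} [Fact ℓ.Prime] {K : Type} [Field K] [Algebra ℚ_[ℓ] K] [TopologicalSpace K]
    (R : Orth F n m δ ℓ K) (v : Pl F) (𝔓 : Ideal (Zb F)) (hO : Over v 𝔓)
    (hℓ : (ℓ : 𝓞 F) ∉ v.asIdeal) (σ : Gal F) (hσ : Congr 𝔓 1 σ)
    (x y : Fin n → K) :
    A39.bil R.B (vec R.ρ σ x) (vec R.ρ σ y) = A39.bil R.B x y := by
  apply A39.bil_isom
  have h1 := R.inv σ
  rw [hCYCI F v 𝔓 hO ℓ hℓ σ hσ, one_zpow, Units.val_one, map_one, one_smul] at h1
  exact h1

end A51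

theorem st_ODDVT (hFIN : ST_FIN) (hSUR : ST_SUR) (hGRP : ST_GRP) (hTOP : ST_TOP)
    (hDENS : ST_DENSK) (hREP : ST_REP) (hFILT : ST_FILT) (hODD : ST_ODD) (hCYCI : ST_CYCI)
    (hKUM : ST_KUM) : ST_ODDVT := by
  intro F _ _ n m δ hδ v a h2 p hp hpv ℓ hℓF K _ _ _ _ _ ζ hℓv hζ R hcond
  have hp2 : p ≠ 2 := by
    rintro rfl
    exact h2 (by exact_mod_cast hpv)
  have hK0 : CharZero K := charZero_of_injective_algebraMap (algebraMap ℚ_[ℓ] K).injective
  obtain ⟨𝔓, L, hO, hfd, hn, htriv, hform⟩ := hcond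
  obtain ⟨g1, g2, g3, g4, g5, g6, g7, g8⟩ := hGRP F v 𝔓 hO
  obtain ⟨τ, hτ, -⟩ := hTOP F v 𝔓 hO
  obtain ⟨M⟩ := hFIN F v 𝔓 hO L hfd hn
  obtain ⟨t₀, ht₀, hont⟩ := g7 L hn τ hτ.1
  set t : Inr L 𝔓 := ⟨t₀, ht₀⟩ with ht
  have hfin : Finite (L ≃ₐ[F] L) := by
    have := hfd
    infer_instance
  have hfin' : Finite (Inr L 𝔓) := inferInstance
  let _ := Fintype.ofFinite (Inr L 𝔓)
  have hgen : ∀ g : Inr L 𝔓, ∃ j : ℕ, t ^ j * g ∈ Rk M.base 1 := by
    intro g
    obtain ⟨σ, hσ, hon⟩ := hSUR F v 𝔓 hO L hfd hn g g.2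
    obtain ⟨j, hj⟩ := hτ.2 L hfd hn σ hσ
    refine ⟨j, ?_⟩
    have hon2 : On L (τ ^ j * σ) ((t ^ j * g : Inr L 𝔓) : L ≃ₐ[F] L) := by
      rw [Subgroup.coe_mul, Subgroup.coe_pow]
      exact A39.on_mul L _ _ _ _ (A39.on_pow L _ _ hont j) hon
    exact (M.ram 1 (t ^ j * g)).1 ((g8 L 1 _ _ hon2).1 hj)
  have hwp : M.w ((p : ℕ) : L) < 1 := by
    have h3 := M.val (p : F)
    rw [map_natCast] at h3
    rw [h3]
    have h4 : v.valuation F (p : F) < 1 := by
      have h5 := (IsDedekindDomain.HeightOneSpectrum.valuation_lt_one_iff_mem (K := F) v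
        (p : 𝓞 F)).2 hpv
      have e5 : ((p : 𝓞 F) : F) = (p : F) := map_natCast (algebraMap (𝓞 F) F) p
      rw [← e5]
      exact h5
    exact pow_lt_one₀ zero_le h4 Nat.card_pos.ne'
  obtain ⟨e, hF⟩ := hFILT L (Inr L 𝔓) M.w M.π M.base p hp hwp t hgen
  obtain ⟨hcard, r, hr1, hr2, hr3, hr4⟩ := hREP F v 𝔓 hO L hfd hn M K n R.ρ htriv
  set ρ := R.ρ with hρ
  have hrρ : ∀ (σ : Gal F) (g : Rk M.base 1), Wild 𝔓 σ →
      On L σ ((g : Inr L 𝔓) : L ≃ₐ[F] L) → ∀ x, vec r g x = vec ρ σ x := by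
    intro σ g hw hon x
    unfold vec
    rw [hr1 σ g hw hon]
  have hiso : ∀ σ : Gal F, Congr 𝔓 1 σ → ∀ x y : Fin n → K,
      A39.bil R.B (vec ρ σ x) (vec ρ σ y) = A39.bil R.B x y :=
    fun σ hσ x y => A51.isom_of_congrT hCYCI R v 𝔓 hO hℓv σ hσ x y
  have hsymm := A39.bil_symm R.B R.symm R.nondeg
  set T : (Fin n → K) →ₗ[K] (Fin n → K) := A39.toE ρ τ with hT
  have hTapp : ∀ x, T x = vec ρ τ x := fun x => rfl
  have hTiso : ∀ x y, A39.bil R.B (T x) (T y) = A39.bil R.B x y := hiso τ hτ.1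
  have hfix0 : fixd ρ {σ | Congr 𝔓 1 σ} =
      (fixS (A39.toE r) ⊤ ⊓ LinearMap.ker (T - 1) : Submodule K (Fin n → K)) := by
    ext x
    constructor
    · intro hx
      refine ⟨?_, ?_⟩
      · intro g _
        obtain ⟨σ, hw, hon⟩ := hr2 g
        rw [A39.toE_apply, hrρ σ g hw hon]
        exact hx σ (g3 σ hw)
      · rw [SetLike.mem_coe, LinearMap.mem_ker, LinearMap.sub_apply, Module.End.one_apply,
          sub_eq_zero]
        exact hx τ hτ.1
    · rintro ⟨hx1, hx2⟩ σ hσ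
      rw [SetLike.mem_coe, LinearMap.mem_ker, LinearMap.sub_apply, Module.End.one_apply,
        sub_eq_zero] at hx2
      refine hDENS F v 𝔓 hO τ hτ K n ρ R.cont x ?_ hx2 σ hσ
      intro σ' hw
      obtain ⟨g, hon⟩ := hr3 σ' hw
      rw [← hrρ σ' g hw hon]
      exact hx1 g (Subgroup.mem_top _)
  have hfixi : ∀ i : ℕ, fixd ρ {σ | Wild 𝔓 σ ∧ Ram L 𝔓 (i + 1) σ} =
      fixS (A39.toE r) (Rk M.base (i + 1)) := by
    intro i
    ext x
    rw [hr4 i x]
    rfl
  have hfr : Module.finrank K (Fin n → K) = n := by simp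
  have hmain : Even (a + Module.finrank K (LinearMap.range (T - 1))) := by
    refine hODD (Inr L 𝔓) p e t (Rk M.base) hp hp2 hF K (Fin n → K)
      (algebraMap ℚ_[ℓ] K ζ) (hζ.map_of_injective (algebraMap ℚ_[ℓ] K).injective)
      (A39.bil R.B) hsymm (A39.toE r) T ?_ hTiso ?_ a ?_
    · intro g x y
      obtain ⟨σ, hw, hon⟩ := hr2 g
      rw [A39.toE_apply, A39.toE_apply, hrρ σ g hw hon, hrρ σ g hw hon]
      exact hiso σ (g3 σ hw) x y
    · intro g g' hg' x
      obtain ⟨σ, hw, hon⟩ := hr2 g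
      have hw' := g6 σ τ hw hτ.1
      have hon' : On L (τ * σ * τ⁻¹) ((g' : Inr L 𝔓) : L ≃ₐ[F] L) := by
        rw [hg', Subgroup.coe_mul, Subgroup.coe_mul, Subgroup.coe_inv]
        exact A39.on_mul L _ _ _ _ (A39.on_mul L _ _ _ _ hont hon) (A39.on_inv L _ _ hont)
      show vec ρ τ (vec r g x) = vec r g' (vec ρ τ x)
      rw [hrρ σ g hw hon, hrρ _ g' hw' hon', ← A39.vec_mul, ← A39.vec_mul]
      congr 1
      group
    · have hc0 : ramCard L 𝔓 0 = Nat.card (Inr L 𝔓) := by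
        rw [hcard 0, hF.top, Subgroup.card_top]
      rw [hc0] at hform
      rw [hform, hfr, ← hfix0]
      congr 1
      apply finsum_congr
      intro i
      rw [hcard (i + 1), ← hfixi i]
      rfl
  have hdet : LinearMap.det T = (-1) ^ Module.finrank K (LinearMap.range (T - 1)) :=
    CP18.det_isometry (A39.bil R.B) hsymm.nondeg hsymm.symm T hTiso
  rw [hT, A39.det_toE, ← hT] at hdet
  obtain ⟨y, hy⟩ := IsAlgClosed.exists_pow_nat_eq (algebraMap F (AlgebraicClosure F) δ)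
    (n := 2) (by norm_num)
  have hK := hKUM F v 𝔓 hO h2 τ hτ δ y hδ hy
  have hcyc := hCYCI F v 𝔓 hO ℓ hℓv τ hτ.1
  obtain ⟨q1, q2⟩ := A39.parity_of_pow (k := K)
    (Module.finrank K (LinearMap.range (T - 1)))
  rcases R.det τ y hy with ⟨h3, h4⟩ | ⟨h3, h4⟩
  · rw [hcyc, one_zpow, Units.val_one, map_one] at h4
    have h5 : Even (od v δ) := hK.1 h3
    have h6 := q1 (hdet.symm.trans h4)
    have h7 : Even a := (Nat.even_add.1 hmain).2 h6
    exact Even.add (by exact_mod_cast h7) h5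
  · rw [hcyc, one_zpow, Units.val_one, map_one] at h4
    have hy0 : y ≠ 0 := by
      rintro rfl
      rw [zero_pow two_ne_zero] at hy
      have := (map_eq_zero (algebraMap F (AlgebraicClosure F))).1 hy.symm
      exact hδ this
    have h5 : ¬ Even (od v δ) := by
      intro he
      have h8 := hK.2 he
      rw [h3] at h8
      have h9 : (2 : AlgebraicClosure F) * y = 0 := by
        have : y + y = 0 := by
          nth_rewrite 1 [← h8]
          ring
        rw [two_mul]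
        exact this
      rcases mul_eq_zero.1 h9 with h10 | h10
      · exact two_ne_zero h10
      · exact hy0 h10
    have h6 := q2 (hdet.symm.trans h4)
    have h7 : ¬ Even a := fun h => h6 ((Nat.even_add.1 hmain).1 h)
    rw [Int.even_add]
    constructor
    · intro h
      exact absurd (by exact_mod_cast h) h7
    · intro h
      exact absurd h h5

end PQ
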